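import Pool.Agent.Q26.TL.Law

/-!
# Rational motivic cohomology of fields, decided in one field and one degree
-/

set_option autoImplicit false

namespace Pool.Agent.Q26.TL

/-- A nonzero class over a field of characteristic that of the prime field `P` gives a nonzero
class over each algebraically closed field of infinite transcendence degree. -/
theorem exists_ne_zero {H : Fun} (hH : Good H) {P F Ω I : Type} [Field P] [Field F] [Field Ω]
    [Algebra P F] [Algebra P Ω] [IsAlgClosed Ω] [Infinite I] (b : I → Ω)
    (hb : AlgebraicIndependent P b) (x : V H F) (hx : x ≠ 0) : ∃ y : V H Ω, y ≠ 0 := by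
  classical
  obtain ⟨s, y, hy⟩ := hH.fin1 F x
  let K := IntermediateField.adjoin P (s : Set F)
  have hsK : ∀ z ∈ s, z ∈ K := fun z hz => IntermediateField.subset_adjoin P _ hz
  have hle : Subring.closure (s : Set F) ≤ K.toSubring := by
    rw [Subring.closure_le]
    exact hsK
  let ι : Subring.closure (s : Set F) →+* K := Subring.inclusion hle
  have hy' : mp H ι y ≠ 0 := by
    intro h
    apply hx
    rw [← hy]
    have h1 := congrArg (mp H (algebraMap K F)) h
    rw [mp_mp, map_zero] at h1
    exact h1
  let S' : Set K := (Subtype.val : K → F) ⁻¹' (s : Set F)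
  have hS' : S'.Finite := s.finite_toSet.preimage Subtype.val_injective.injOn
  have halg : Algebra.IsAlgebraic (Algebra.adjoin P S') K := by
    constructor
    rintro ⟨w, hw⟩
    induction hw using IntermediateField.adjoin_induction with
    | mem z hz =>
      exact isAlgebraic_algebraMap (A := K)
        (⟨⟨z, hsK z hz⟩, Algebra.subset_adjoin hz⟩ : Algebra.adjoin P S')
    | algebraMap c =>
      exact isAlgebraic_algebraMap (A := K) (algebraMap P (Algebra.adjoin P S') c)
    | add u v hu hv h1 h2 => exact h1.add h2
    | inv u hu h1 => exact h1.inv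
    | mul u v hu hv h1 h2 => exact h1.mul h2
  obtain ⟨φ, -, -, -⟩ := exists_embeddings b hb S' hS' halg
  obtain ⟨j⟩ : Nonempty I := inferInstance
  exact ⟨_, fun h => hy' ((injective_iff_map_eq_zero _).1 (hH.inj (φ j).toRingHom) _ h)⟩

/-- The law over a prime field `P` whose algebraic closures carry no classes. -/
theorem exists_linearIndependent {H : Fun} (hH : Good H) {P Ω I : Type} [Field P]
    [Field Ω] [Algebra P Ω] [IsAlgClosed Ω] [Infinite I] (b : I → Ω)
    (hb : IsTranscendenceBasis P b)
    (base : ∀ (k : Type) [Field k] [Algebra P k] [IsAlgClosure P k] (x : V H k), x = 0)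
    (x : V H Ω) (hx : x ≠ 0) : ∃ v : I → V H Ω, LinearIndependent ℚ v := by
  let k := algebraicClosure P Ω
  have hc : IsAlgClosed k := by
    rw [← IsAlgClosed.algebraicClosure_eq_bot_iff k Ω]
    exact algebraicClosure.algebraicClosure_eq_bot P Ω
  have hk : IsAlgClosure P k := ⟨hc, inferInstance⟩
  have hb' : IsTranscendenceBasis k b :=
    (Algebra.IsAlgebraic.isTranscendenceBasis_iff P (S := k)).1 hb
  exact law hH b hb' (fun x => base k x) x hx

/-- Rational motivic cohomology `Hⁱ(A, ℚ(n))` of commutative rings: functors which commute with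
filtered unions of subrings of fields, are injective on finite extensions of fields, carry
multiplication by a transcendental unit `t`, which is injective from `Hⁱ(F, ℚ(n))` to
`Hⁱ⁺¹(F(t), ℚ(n+1))`. -/
structure Theory where
  H : ℤ → ℤ → Fun
  good : ∀ i n, Good (H i n)
  units : ∀ (i n : ℤ) (F : Type) [Field F],
    ∃ μ : V (H i n) F →ₗ[ℚ] V (H (i + 1) (n + 1)) (RatFunc F), Function.Injective μ

/-- Multiplication by `m` transcendental units. -/
theorem Theory.exists_units (M : Theory) {P : Type} [Field P] (m : ℕ) :
    ∀ (i n : ℤ) (F : Type) [Field F] [Algebra P F] (x : V (M.H i n) F), x ≠ 0 →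
      ∃ (F' : Type) (_ : Field F') (_ : Algebra P F') (y : V (M.H (i + m) (n + m)) F'),
        y ≠ 0 := by
  induction m with
  | zero =>
    intro i n F _ _ x hx
    have h3 : i + ((0 : ℕ) : ℤ) = i := by simp
    have h4 : n + ((0 : ℕ) : ℤ) = n := by simp
    rw [h3, h4]
    exact ⟨F, inferInstance, inferInstance, x, hx⟩
  | succ m ih =>
    intro i n F _ _ x hx
    obtain ⟨μ, hμ⟩ := M.units i n F
    let : Algebra P (RatFunc F) := ((algebraMap F (RatFunc F)).comp (algebraMap P F)).toAlgebra
    have h1 : μ x ≠ 0 := fun h => hx ((injective_iff_map_eq_zero _).1 hμ _ h)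
    have h2 := ih (i + 1) (n + 1) (RatFunc F) (μ x) h1
    have h3 : i + 1 + (m : ℤ) = i + ((m + 1 : ℕ) : ℤ) := by push_cast; ring
    have h4 : n + 1 + (m : ℤ) = n + ((m + 1 : ℕ) : ℤ) := by push_cast; ring
    rw [h3, h4] at h2
    exact h2

end Pool.Agent.Q26.TL
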