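import Pool.Agent.Q26.TL.Spec

/-!
# Functors on rings which commute with filtered unions and are injective on finite extensions
-/

set_option autoImplicit false

namespace Pool.Agent.Q26.TL

open CategoryTheory

/-- functors from commutative rings to vector spaces over `ℚ` -/
abbrev Fun := CommRingCat.{0} ⥤ ModuleCat.{0} ℚ

/-- the value on a ring -/
abbrev V (H : Fun) (A : Type) [CommRing A] : Type := H.obj (CommRingCat.of A)

/-- the map induced by a ring homomorphism -/
noncomputable def mp (H : Fun) {A B : Type} [CommRing A] [CommRing B] (f : A →+* B) :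
    V H A →ₗ[ℚ] V H B := (H.map (CommRingCat.ofHom f)).hom

theorem mp_mp (H : Fun) {A B C : Type} [CommRing A] [CommRing B] [CommRing C] (f : A →+* B)
    (g : B →+* C) (x : V H A) : mp H g (mp H f x) = mp H (g.comp f) x := by
  unfold mp
  rw [CommRingCat.ofHom_comp, H.map_comp]
  rfl

/-- the value on a subring of a field -/
abbrev VS (H : Fun) {F : Type} [Field F] (A : Subring F) : Type := V H A

/-- the map induced by the inclusion of a subring in a field -/
noncomputable abbrev toField (H : Fun) {F : Type} [Field F] (A : Subring F) :
    VS H A →ₗ[ℚ] V H F := mp H A.subtype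

/-- the subring generated by a finite set -/
abbrev clos {F : Type} [Field F] (s : Finset F) : Subring F := Subring.closure (s : Set F)

/-- the subring generated by a subring and a finite set -/
abbrev join {F : Type} [Field F] (A : Subring F) (s : Finset F) : Subring F :=
  Subring.closure ((A : Set F) ∪ s)

theorem le_join {F : Type} [Field F] (A : Subring F) (s : Finset F) : A ≤ join A s :=
  fun _ h => Subring.subset_closure (Or.inl h)

/-- the map induced by the inclusion of `A` in `A[s]` -/
noncomputable abbrev toJoin (H : Fun) {F : Type} [Field F] (A : Subring F) (s : Finset F) :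
    VS H A →ₗ[ℚ] VS H (join A s) := mp H (Subring.inclusion (le_join A s))

/-- every class over a field comes from a finitely generated subring -/
def Fin1 (H : Fun) : Prop :=
  ∀ (F : Type) [Field F] (x : V H F), ∃ (s : Finset F) (y : VS H (clos s)),
    toField H (clos s) y = x

/-- a class over a subring `A` of a field which dies over the field dies over `A[s]` for some
finite set `s` -/
def Fin2 (H : Fun) : Prop :=
  ∀ (F : Type) [Field F] (A : Subring F) (x : VS H A), toField H A x = 0 →
    ∃ s : Finset F, toJoin H A s x = 0

/-- injectivity on finite extensions of fields -/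
def FiniteInj (H : Fun) : Prop :=
  ∀ (F E : Type) [Field F] [Field E] (f : F →+* E), f.Finite → Function.Injective (mp H f)

/-- `H` commutes with filtered unions of subrings of fields and is injective on finite
extensions -/
structure Good (H : Fun) : Prop where
  fin1 : Fin1 H
  fin2 : Fin2 H
  alg : FiniteInj H

variable {H : Fun}

/-- such a functor is injective on all extensions of fields -/
theorem Good.inj (hH : Good H) {F E : Type} [Field F] [Field E] (f : F →+* E) :
    Function.Injective (mp H f) := by
  rw [injective_iff_map_eq_zero]
  intro x hx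
  let : Algebra F E := f.toAlgebra
  have h1 : mp H f.range.subtype (mp H f.rangeRestrict x) = 0 := by
    rw [mp_mp]
    exact hx
  obtain ⟨s, hs⟩ := hH.fin2 E f.range _ h1
  let D := Algebra.adjoin F (s : Set E)
  have hle : Subring.closure ((f.range : Set E) ∪ s) ≤ D.toSubring := by
    rw [Subring.closure_le]
    rintro y (⟨z, rfl⟩ | hy)
    · exact D.algebraMap_mem z
    · exact Algebra.subset_adjoin hy
  have h2 := congrArg (mp H (Subring.inclusion hle)) hs
  rw [map_zero, mp_mp, mp_mp] at h2
  obtain ⟨m, hm⟩ := Ideal.exists_maximal D
  let iq : Field (D ⧸ m) := Ideal.Quotient.field m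
  have hft : Algebra.FiniteType F D := Algebra.FiniteType.adjoin_of_finite (s.finite_toSet)
  have hfq : Algebra.FiniteType F (D ⧸ m) :=
    Algebra.FiniteType.of_surjective (Ideal.Quotient.mkₐ F m) Ideal.Quotient.mk_surjective
  have hfin : Module.Finite F (D ⧸ m) := finite_of_finite_type_of_isJacobsonRing F (D ⧸ m)
  let q : D.toSubring →+* (D ⧸ m) := Ideal.Quotient.mk m
  have h3 := congrArg (mp H q) h2
  rw [map_zero, mp_mp] at h3
  refine (injective_iff_map_eq_zero _).1 (hH.alg F (D ⧸ m) (algebraMap F (D ⧸ m)) ?_) x ?_
  · exact (RingHom.finite_algebraMap).2 hfin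
  · exact h3

end Pool.Agent.Q26.TL
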