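import Mathlib

/-!
# Splitting an algebraically closed field along a transcendence basis
-/

set_option autoImplicit false

namespace Pool.Agent.Q26.TL

open scoped IntermediateField.algebraAdjoinAdjoin

/-- Given a transcendence basis `b` of `Ω` over `k` and a set `T` of indices, the algebraic
closure `F` of `k(b_i : i ∉ T)` in `Ω` is algebraically closed, `(b_i)_{i ∈ T}` is algebraically
independent over `F`, and `Ω` is algebraic over `F(b_i : i ∈ T)`. -/
theorem exists_split {k Ω I : Type} [Field k] [Field Ω] [Algebra k Ω] [IsAlgClosed Ω]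
    (b : I → Ω) (hb : IsTranscendenceBasis k b) (T : Set I) :
    ∃ F : IntermediateField k Ω, IsAlgClosed F ∧
      AlgebraicIndependent F (fun i : T => b i) ∧
      (∀ z : Ω, IsAlgebraic (Algebra.adjoin F (Set.range fun i : T => b i)) z) ∧
      ∀ z : Ω, IsAlgebraic (Algebra.adjoin k (b '' Tᶜ)) z → z ∈ F := by
  let A0 := Algebra.adjoin k (b '' Tᶜ)
  let F0 := IntermediateField.adjoin k (b '' Tᶜ)
  let F1 : IntermediateField F0 Ω := algebraicClosure F0 Ω
  have h1 : AlgebraicIndependent A0 (fun i : T => b i) :=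
    hb.1.adjoin_of_disjoint disjoint_compl_left
  have h2 : AlgebraicIndependent F0 (fun i : T => b i) := h1.extendScalars F0
  have h3 : AlgebraicIndependent F1 (fun i : T => b i) := h2.algebraicClosure
  have hc : IsAlgClosed F1 := by
    rw [← IsAlgClosed.algebraicClosure_eq_bot_iff F1 Ω]
    exact algebraicClosure.algebraicClosure_eq_bot F0 Ω
  let F : IntermediateField k Ω := F1.restrictScalars k
  have hF : ∀ z : Ω, IsAlgebraic A0 z → z ∈ F := by
    intro z hz
    change z ∈ F1
    rw [mem_algebraicClosure_iff]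
    exact hz.extendScalars (S := F0) (FaithfulSMul.algebraMap_injective A0 F0)
  refine ⟨F, hc, h3, fun z => ?_, hF⟩
  let At := Algebra.adjoin F (Set.range fun i : T => b i)
  have hle : Algebra.adjoin k (Set.range b) ≤ At.restrictScalars k := by
    rw [Algebra.adjoin_le_iff]
    rintro _ ⟨i, rfl⟩
    change b i ∈ At
    by_cases hi : i ∈ T
    · exact Algebra.subset_adjoin ⟨⟨i, hi⟩, rfl⟩
    · have h4 : b i ∈ F := by
        apply hF
        exact isAlgebraic_algebraMap (A := Ω) (⟨b i, Algebra.subset_adjoin ⟨i, hi, rfl⟩⟩ : A0)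
      exact At.algebraMap_mem ⟨b i, h4⟩
  have : Algebra.IsAlgebraic (Algebra.adjoin k (Set.range b)) Ω := hb.isAlgebraic
  have h5 : IsAlgebraic (Algebra.adjoin k (Set.range b)) z := Algebra.IsAlgebraic.isAlgebraic z
  exact h5.ringHom_of_comp_eq (S := At) (B := Ω) (Subalgebra.inclusion hle).toRingHom
    (RingHom.id Ω) (Subalgebra.inclusion_injective hle) rfl

/-- Infinitely many embeddings of a finitely generated field `K` into `Ω` which use disjoint
parts of a transcendence basis. -/
theorem exists_embeddings {k K Ω I : Type} [Field k] [Field K] [Algebra k K] [Field Ω]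
    [Algebra k Ω] [IsAlgClosed Ω] [Infinite I] (b : I → Ω) (hb : AlgebraicIndependent k b)
    (S : Set K) (hS : S.Finite) (halg : Algebra.IsAlgebraic (Algebra.adjoin k S) K) :
    ∃ (φ : I → K →ₐ[k] Ω) (E : I → Finset I),
      (∀ i j, i ≠ j → Disjoint (E i) (E j)) ∧
      ∀ j z, IsAlgebraic (Algebra.adjoin k (b '' (E j : Set I))) (φ j z) := by
  classical
  obtain ⟨t, htS, hbt⟩ := exists_isTranscendenceBasis_subset (R := k) S
  have hfin : Finite t := (hS.subset htS).to_subtype
  have hcard : Nonempty (I × t ↪ I) := by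
    rw [← Cardinal.le_def, Cardinal.mk_prod, Cardinal.lift_id, Cardinal.lift_id]
    refine (Cardinal.mul_le_max_of_aleph0_le_left (Cardinal.aleph0_le_mk I)).trans ?_
    rw [max_le_iff]
    exact ⟨le_rfl, (Cardinal.mk_lt_aleph0_iff.2 hfin).le.trans (Cardinal.aleph0_le_mk I)⟩
  obtain ⟨e⟩ := hcard
  have := Fintype.ofFinite t
  let A0 := Algebra.adjoin k (Set.range ((↑) : t → K))
  have key : ∀ j : I, ∃ φ : K →ₐ[k] Ω, ∀ z, IsAlgebraic (Algebra.adjoin k
      (b '' ((Finset.univ.image fun i : t => e (j, i) : Finset I) : Set I))) (φ z) := by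
    intro j
    have hy : AlgebraicIndependent k (fun i : t => b (e (j, i))) :=
      hb.comp (fun i : t => e (j, i)) (fun x y h => by simpa using e.injective h)
    let g : A0 →ₐ[k] Ω := (MvPolynomial.aeval fun i : t => b (e (j, i))).comp
      hbt.1.aevalEquiv.symm.toAlgHom
    have hg : Function.Injective g :=
      Function.Injective.comp (g := MvPolynomial.aeval fun i : t => b (e (j, i))) hy
        hbt.1.aevalEquiv.symm.injective
    let : Algebra A0 Ω := g.toRingHom.toAlgebra
    have hst : IsScalarTower k A0 Ω := .of_algebraMap_eq fun x => (g.commutes x).symm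
    have htf : Module.IsTorsionFree A0 Ω := by
      rw [Module.isTorsionFree_iff_algebraMap_injective]
      exact hg
    have : Algebra.IsAlgebraic A0 K := hbt.isAlgebraic
    let φ : K →ₐ[A0] Ω := IsAlgClosed.lift (R := A0) (S := K) (M := Ω)
    refine ⟨φ.restrictScalars k, fun z => ?_⟩
    let B := Algebra.adjoin k
      (b '' ((Finset.univ.image fun i : t => e (j, i) : Finset I) : Set I))
    have hgB : ∀ x, g x ∈ B := by
      intro x
      change MvPolynomial.aeval (fun i : t => b (e (j, i))) (hbt.1.aevalEquiv.symm x) ∈ B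
      have h1 : MvPolynomial.aeval (fun i : t => b (e (j, i))) (hbt.1.aevalEquiv.symm x) ∈
          (MvPolynomial.aeval (R := k) (fun i : t => b (e (j, i)))).range := ⟨_, rfl⟩
      rw [← Algebra.adjoin_range_eq_range_aeval] at h1
      refine Algebra.adjoin_mono ?_ h1
      rintro _ ⟨i, rfl⟩
      exact ⟨e (j, i), by simp, rfl⟩
    have hz : IsAlgebraic A0 z := Algebra.IsAlgebraic.isAlgebraic z
    refine hz.ringHom_of_comp_eq (S := B) (B := Ω) (g.codRestrict B hgB).toRingHom
      φ.toRingHom ?_ ?_
    · intro x y hxy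
      exact hg (congrArg (Subtype.val : B → Ω) hxy)
    · ext x
      exact (φ.commutes x).symm
  choose φ hφ using key
  refine ⟨φ, fun j => Finset.univ.image fun i : t => e (j, i), fun i j hij => ?_, hφ⟩
  rw [Finset.disjoint_left]
  intro a ha hb'
  simp only [Finset.mem_image, Finset.mem_univ, true_and] at ha hb'
  obtain ⟨x, rfl⟩ := ha
  obtain ⟨y, hy⟩ := hb'
  exact hij (Prod.ext_iff.1 (e.injective hy)).1.symm

end Pool.Agent.Q26.TL
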