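import Pool.Agent.Q26.TL.Inj
import Pool.Agent.Q26.TL.Split

/-!
# The zero-or-transcendence-degree law
-/

set_option autoImplicit false

namespace Pool.Agent.Q26.TL

theorem closure_hom_mem {R B : Type} [CommRing R] [CommRing B] (s : Set R)
    (θ : Subring.closure s →+* B) (T : Subring B)
    (h : ∀ x (hx : x ∈ s), θ ⟨x, Subring.subset_closure hx⟩ ∈ T) (w : Subring.closure s) :
    θ w ∈ T := by
  obtain ⟨w, hw⟩ := w
  induction hw using Subring.closure_induction with
  | mem x hx => exact h x hx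
  | zero => exact (map_zero θ).symm ▸ T.zero_mem
  | one => exact (map_one θ).symm ▸ T.one_mem
  | add x y hx hy h1 h2 =>
    have := T.add_mem h1 h2
    rw [← map_add] at this
    exact this
  | neg x hx h1 =>
    have := T.neg_mem h1
    rw [← map_neg] at this
    exact this
  | mul x y hx hy h1 h2 =>
    have := T.mul_mem h1 h2
    rw [← map_mul] at this
    exact this

theorem closure_hom_ext {R B : Type} [CommRing R] [CommRing B] (s : Set R)
    (θ θ' : Subring.closure s →+* B)
    (h : ∀ x (hx : x ∈ s), θ ⟨x, Subring.subset_closure hx⟩ =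
      θ' ⟨x, Subring.subset_closure hx⟩) : θ = θ' := by
  ext w
  obtain ⟨w, hw⟩ := w
  induction hw using Subring.closure_induction with
  | mem x hx => exact h x hx
  | zero => exact (map_zero θ).trans (map_zero θ').symm
  | one => exact (map_one θ).trans (map_one θ').symm
  | add x y hx hy h1 h2 =>
    have h3 : θ (⟨x, hx⟩ + ⟨y, hy⟩) = θ' (⟨x, hx⟩ + ⟨y, hy⟩) := by rw [map_add, map_add, h1, h2]
    exact h3
  | neg x hx h1 =>
    have h3 : θ (-⟨x, hx⟩) = θ' (-⟨x, hx⟩) := by rw [map_neg, map_neg, h1]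
    exact h3
  | mul x y hx hy h1 h2 =>
    have h3 : θ (⟨x, hx⟩ * ⟨y, hy⟩) = θ' (⟨x, hx⟩ * ⟨y, hy⟩) := by rw [map_mul, map_mul, h1, h2]
    exact h3

/-- a class which factors through a field on which `H` vanishes is zero -/
theorem mp_eq_zero_of_range {H : Fun} {k F A : Type} [Field k] [Field F] [CommRing A]
    (i : k →+* F) (hk : ∀ x : V H k, x = 0) (θ : A →+* F) (h : ∀ w, θ w ∈ i.range)
    (y : V H A) : mp H θ y = 0 := by
  let e : k ≃+* i.range := RingEquiv.ofBijective i.rangeRestrict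
    ⟨fun a b hab => i.injective (congrArg Subtype.val hab), i.rangeRestrict_surjective⟩
  have h1 : mp H θ y = mp H (i.range.subtype.comp e.toRingHom)
      (mp H (e.symm.toRingHom.comp (θ.codRestrict i.range h)) y) := by
    rw [mp_mp]
    congr 2
    ext w
    change θ w = (e (e.symm (θ.codRestrict i.range h w)) : F)
    rw [e.apply_symm_apply]
    rfl
  rw [h1, hk (mp H (e.symm.toRingHom.comp (θ.codRestrict i.range h)) y), map_zero]

/-- **The law.** Let `H` be good and let `k ⊆ Ω` be algebraically closed fields such that `Ω` has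
an infinite transcendence basis `I` over `k`. If `H(k) = 0` and `H(Ω) ≠ 0` then `H(Ω)` contains
linearly independent classes indexed by `I`. -/
theorem law {H : Fun} (hH : Good H) {k Ω I : Type} [Field k] [Field Ω] [Algebra k Ω]
    [IsAlgClosed k] [IsAlgClosed Ω] [Infinite I] (b : I → Ω) (hb : IsTranscendenceBasis k b)
    (hk : ∀ x : V H k, x = 0) (x : V H Ω) (hx : x ≠ 0) :
    ∃ v : I → V H Ω, LinearIndependent ℚ v := by
  classical
  obtain ⟨s, y, hy⟩ := hH.fin1 Ω x
  let K := IntermediateField.adjoin k (s : Set Ω)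
  have hsK : ∀ z ∈ s, z ∈ K := fun z hz => IntermediateField.subset_adjoin k _ hz
  have hle : Subring.closure (s : Set Ω) ≤ K.toSubring := by
    rw [Subring.closure_le]
    exact hsK
  let ι : Subring.closure (s : Set Ω) →+* K := Subring.inclusion hle
  have hy' : mp H ι y ≠ 0 := by
    intro h
    apply hx
    rw [← hy]
    have h1 := congrArg (mp H (algebraMap K Ω)) h
    rw [mp_mp, map_zero] at h1
    exact h1
  let S' : Set K := (Subtype.val : K → Ω) ⁻¹' (s : Set Ω)
  have hS' : S'.Finite := s.finite_toSet.preimage Subtype.val_injective.injOn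
  have halg : Algebra.IsAlgebraic (Algebra.adjoin k S') K := by
    constructor
    rintro ⟨w, hw⟩
    induction hw using IntermediateField.adjoin_induction with
    | mem z hz =>
      exact isAlgebraic_algebraMap (A := K)
        (⟨⟨z, hsK z hz⟩, Algebra.subset_adjoin hz⟩ : Algebra.adjoin k S')
    | algebraMap c =>
      exact isAlgebraic_algebraMap (A := K) (algebraMap k (Algebra.adjoin k S') c)
    | add u v hu hv h1 h2 => exact h1.add h2
    | inv u hu h1 => exact h1.inv
    | mul u v hu hv h1 h2 => exact h1.mul h2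
  obtain ⟨φ, E, hE, hφ⟩ := exists_embeddings b hb.1 S' hS' halg
  refine ⟨fun j => mp H (φ j).toRingHom (mp H ι y), ?_⟩
  rw [linearIndependent_iff']
  intro J g hg j1 hj1
  by_contra hne
  let T : Finset I := (J.erase j1).biUnion E
  obtain ⟨F, hF1, hF2, hF3, hF4⟩ := exists_split b hb (T : Set I)
  let u : I → Finset Ω := fun j => s.attach.image (fun z => φ j ⟨z.1, hsK z.1 z.2⟩)
  let G : Finset Ω := J.biUnion u ∪ T.image b
  let C : Subring Ω := (Algebra.adjoin F (G : Set Ω)).toSubring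
  have hG : ∀ z ∈ G, z ∈ C := fun z hz => Algebra.subset_adjoin hz
  have hψ : ∀ (j : {j // j ∈ J}) (w : Subring.closure (s : Set Ω)), φ j.1 (ι w) ∈ C := by
    intro j
    refine closure_hom_mem _ ((φ j.1).toRingHom.comp ι) C fun z hz => ?_
    apply hG
    refine Finset.mem_union_left _ (Finset.mem_biUnion.2 ⟨j.1, j.2, ?_⟩)
    exact Finset.mem_image.2 ⟨⟨z, hz⟩, Finset.mem_attach _ _, rfl⟩
  let ψ : {j // j ∈ J} → Subring.closure (s : Set Ω) →+* C := fun j =>
    ((φ j.1).toRingHom.comp ι).codRestrict C (hψ j)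
  let z : V H C := ∑ j ∈ J.attach, g j.1 • mp H (ψ j) y
  have hz : mp H C.subtype z = 0 := by
    rw [map_sum]
    rw [← Finset.sum_attach] at hg
    refine Eq.trans (Finset.sum_congr rfl fun j _ => ?_) hg
    rw [map_smul, mp_mp, mp_mp]
    rfl
  obtain ⟨s', hs'⟩ := hH.fin2 Ω C z hz
  let G' : Finset Ω := G ∪ s'
  let D := Algebra.adjoin F (G' : Set Ω)
  have hCD : C ≤ D.toSubring := by
    intro w hw
    refine Algebra.adjoin_mono ?_ hw
    exact Finset.coe_subset.2 (Finset.subset_union_left)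
  have hle2 : Subring.closure ((C : Set Ω) ∪ s') ≤ D.toSubring := by
    rw [Subring.closure_le]
    rintro w (hw | hw)
    · exact hCD hw
    · exact Algebra.subset_adjoin (Finset.mem_coe.2 (Finset.mem_union_right _ hw))
  let ic : C →+* D := Subring.inclusion hCD
  have hzD : mp H ic z = 0 := by
    have h1 := congrArg (mp H (Subring.inclusion hle2)) hs'
    rw [map_zero, mp_mp] at h1
    exact h1
  let Q : Finset Ω := (J.erase j1).biUnion u
  have hQ : ∀ q ∈ Q, q ∈ Algebra.adjoin F (G' : Set Ω) ∧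
      IsAlgebraic (Algebra.adjoin k (Set.range fun i : (T : Set I) => b i)) q := by
    intro q hq
    obtain ⟨j, hj, hq⟩ := Finset.mem_biUnion.1 hq
    refine ⟨hCD (hG q (Finset.mem_union_left _
      (Finset.mem_biUnion.2 ⟨j, Finset.mem_of_mem_erase hj, hq⟩))), ?_⟩
    obtain ⟨w, -, rfl⟩ := Finset.mem_image.1 hq
    refine (hφ j _).tower_top_of_subalgebra_le (Algebra.adjoin_mono ?_)
    rintro _ ⟨i, hi, rfl⟩
    exact ⟨⟨i, Finset.mem_coe.2 (Finset.mem_biUnion.2 ⟨j, hj, hi⟩)⟩, rfl⟩
  obtain ⟨g', hg'⟩ := exists_specialisation (k := k) (F := F) (Ω := Ω)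
    (fun i : (T : Set I) => b i) hF2 hF3 G' (fun i => hCD (hG _ (Finset.mem_union_right _
      (Finset.mem_image.2 ⟨i.1, i.2, rfl⟩)))) Q hQ
  have hsum : ∑ j ∈ J.attach, g j.1 • mp H ((g'.toRingHom.comp ic).comp (ψ j)) y = 0 := by
    have h1 := congrArg (mp H g'.toRingHom) hzD
    rw [map_zero, mp_mp, map_sum] at h1
    refine Eq.trans (Finset.sum_congr rfl fun j _ => ?_) h1
    rw [map_smul, mp_mp]
  have hterm : ∀ j ∈ J.attach, j ≠ ⟨j1, hj1⟩ →
      g j.1 • mp H ((g'.toRingHom.comp ic).comp (ψ j)) y = 0 := by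
    intro j _ hj
    have hj' : j.1 ∈ J.erase j1 := Finset.mem_erase.2 ⟨fun h => hj (Subtype.ext h), j.2⟩
    rw [mp_eq_zero_of_range (algebraMap k F) hk, smul_zero]
    refine closure_hom_mem _ _ _ fun w hw => ?_
    exact hg' (φ j.1 ⟨w, hsK w hw⟩) (Finset.mem_biUnion.2 ⟨j.1, hj',
      Finset.mem_image.2 ⟨⟨w, hw⟩, Finset.mem_attach _ _, rfl⟩⟩)
  rw [Finset.sum_eq_single_of_mem ⟨j1, hj1⟩ (Finset.mem_attach _ _) hterm] at hsum
  have hF : ∀ w : K, φ j1 w ∈ F := by
    intro w
    apply hF4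
    refine (hφ j1 w).tower_top_of_subalgebra_le (Algebra.adjoin_mono (Set.image_mono ?_))
    intro i hi hi'
    obtain ⟨j, hj, hij⟩ := Finset.mem_biUnion.1 hi'
    exact Finset.disjoint_left.1 (hE j1 j (Finset.ne_of_mem_erase hj).symm) hi hij
  have h2 : (algebraMap F Ω).comp ((g'.toRingHom.comp ic).comp (ψ ⟨j1, hj1⟩)) =
      (φ j1).toRingHom.comp ι := by
    refine closure_hom_ext _ _ _ fun w hw => ?_
    have h3 : ic (ψ ⟨j1, hj1⟩ ⟨w, Subring.subset_closure hw⟩) =
        algebraMap F D ⟨φ j1 ⟨w, hsK w hw⟩, hF _⟩ := rfl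
    change algebraMap F Ω (g' (ic (ψ ⟨j1, hj1⟩ ⟨w, Subring.subset_closure hw⟩))) =
      φ j1 ⟨w, hsK w hw⟩
    rw [h3, g'.commutes]
    rfl
  have h4 := congrArg (mp H (algebraMap F Ω)) hsum
  rw [map_smul, mp_mp, map_zero, h2, ← mp_mp] at h4
  rcases smul_eq_zero.1 h4 with h5 | h5
  · exact hne h5
  · exact hy' ((injective_iff_map_eq_zero _).1 (hH.inj (φ j1).toRingHom) _ h5)

end Pool.Agent.Q26.TL
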