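import Mathlib

/-!
# Specialisation of independent transcendentals to constants
-/

set_option autoImplicit false

namespace Pool.Agent.Q26.TL

open MvPolynomial

/-- a nonzero polynomial over `F` does not vanish at some point with coordinates in the infinite
subfield `k` -/
theorem exists_point {k F : Type} [Field k] [Field F] [Algebra k F] {τ : Type} [Infinite k]
    (f : MvPolynomial τ F) (hf : f ≠ 0) :
    ∃ a : τ → k, eval (fun i => algebraMap k F (a i)) f ≠ 0 := by
  by_contra h
  push Not at h
  apply hf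
  apply funext_set (fun _ : τ => Set.range (algebraMap k F))
    (fun _ => Set.infinite_range_of_injective (algebraMap k F).injective)
  intro x hx
  choose a ha using fun i => hx i trivial
  have h1 : x = fun i => algebraMap k F (a i) := funext fun i => (ha i).symm
  rw [h1, h a, map_zero]

/-- integral multiples of algebraic elements -/
theorem exists_multiple {K Ω : Type} [Field K] [Field Ω] [Algebra K Ω] {τ : Type} (t : τ → Ω)
    (ht : AlgebraicIndependent K t) (z : Ω)
    (hz : IsAlgebraic (Algebra.adjoin K (Set.range t)) z) :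
    ∃ f : MvPolynomial τ K, f ≠ 0 ∧
      (aeval t : MvPolynomial τ K →ₐ[K] Ω).toRingHom.IsIntegralElem (aeval t f * z) := by
  let : Algebra (MvPolynomial τ K) Ω := (aeval t : MvPolynomial τ K →ₐ[K] Ω).toRingHom.toAlgebra
  have h2 : IsAlgebraic (MvPolynomial τ K) z := by
    refine IsAlgebraic.of_ringHom_of_comp_eq
      (ht.aevalEquiv : MvPolynomial τ K ≃ₐ[K] _).toRingHom (RingHom.id Ω)
      (S := Algebra.adjoin K (Set.range t)) hz ht.aevalEquiv.surjective
      Function.injective_id ?_
    ext x <;> simp [RingHom.algebraMap_toAlgebra]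
  obtain ⟨f, hf, hfi⟩ := h2.exists_integral_multiple
  refine ⟨f, hf, ?_⟩
  rw [Algebra.smul_def] at hfi
  exact hfi

/-- integral elements over an algebraically closed field -/
theorem mem_range_of_integral {k F : Type} [Field k] [Field F] [Algebra k F] [IsAlgClosed k]
    [IsAlgClosed F] (w : F) (hw : IsIntegral k w) : w ∈ Set.range (algebraMap k F) := by
  have h1 : algebraicClosure k F = ⊥ := (IsAlgClosed.algebraicClosure_eq_bot_iff k F).2 inferInstance
  have h2 : w ∈ algebraicClosure k F := by
    rw [mem_algebraicClosure_iff]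
    exact hw.isAlgebraic
  rw [h1] at h2
  exact IntermediateField.mem_bot.1 h2

/-- **Specialisation.** Let `t` be a finite family in `Ω` which is algebraically independent over
the algebraically closed field `F`, such that `Ω` is algebraic over `F(t)`; let `D` be a finitely
generated `F`-subalgebra of `Ω` which contains `t`, and let `Q` be a finite set of elements of `D`
which are algebraic over `k[t]`. There is an `F`-homomorphism `D → F` which maps `Q` into the
algebraically closed field `k ⊆ F`. -/
theorem exists_specialisation {k F Ω : Type} [Field k] [Field F] [Field Ω] [Algebra k F]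
    [Algebra F Ω] [Algebra k Ω] [IsScalarTower k F Ω] {τ : Type} [Finite τ]
    [IsAlgClosed k] [IsAlgClosed F] (t : τ → Ω)
    (ht : AlgebraicIndependent F t)
    (halg : ∀ z : Ω, IsAlgebraic (Algebra.adjoin F (Set.range t)) z)
    (G : Finset Ω) (hG : ∀ i, t i ∈ Algebra.adjoin F (G : Set Ω))
    (Q : Finset Ω) (hQ : ∀ q ∈ Q, q ∈ Algebra.adjoin F (G : Set Ω) ∧
      IsAlgebraic (Algebra.adjoin k (Set.range t)) q) :
    ∃ g : Algebra.adjoin F (G : Set Ω) →ₐ[F] F, ∀ q (hq : q ∈ Q),
      g ⟨q, (hQ q hq).1⟩ ∈ Set.range (algebraMap k F) := by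
  classical
  have hinf : Infinite k := IsAlgClosed.instInfinite
  have := Fintype.ofFinite τ
  have htk : AlgebraicIndependent k t := ht.restrictScalars (algebraMap k F).injective
  -- integral multiples
  choose fA hA0 hA using fun z : Ω => exists_multiple t ht z (halg z)
  have hB : ∀ q : Ω, ∃ f : MvPolynomial τ k, f ≠ 0 ∧ (q ∈ Q →
      (aeval t : MvPolynomial τ k →ₐ[k] Ω).toRingHom.IsIntegralElem (aeval t f * q)) := by
    intro q
    by_cases hq : q ∈ Q
    · obtain ⟨f, h1, h2⟩ := exists_multiple t htk q (hQ q hq).2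
      exact ⟨f, h1, fun _ => h2⟩
    · exact ⟨1, one_ne_zero, fun h => absurd h hq⟩
  choose fB hB0 hB using hB
  set P : MvPolynomial τ F := (∏ z ∈ G, fA z) * map (algebraMap k F) (∏ q ∈ Q, fB q) with hP
  have hP0 : P ≠ 0 := by
    refine mul_ne_zero (Finset.prod_ne_zero_iff.2 fun z _ => hA0 z) ?_
    rw [Ne, map_eq_zero_iff _ (map_injective _ (algebraMap k F).injective)]
    exact Finset.prod_ne_zero_iff.2 fun q _ => hB0 q
  obtain ⟨a, ha⟩ := exists_point (k := k) P hP0
  set a' : τ → F := fun i => algebraMap k F (a i) with ha'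
  set D := Algebra.adjoin F (G : Set Ω) with hD
  let ev : MvPolynomial τ F →+* Ω := (aeval t : MvPolynomial τ F →ₐ[F] Ω).toRingHom
  have hev : ∀ f, ev f = aeval t f := fun _ => rfl
  -- denominators
  have hden : ∀ d ∈ D, ∃ n : ℕ, ev.IsIntegralElem (ev P ^ n * d) := by
    intro d hd
    induction hd using Algebra.adjoin_induction with
    | mem z hz =>
      refine ⟨1, ?_⟩
      obtain ⟨r, hr⟩ : ∃ r, P = r * fA z := by
        have hz' : z ∈ G := hz
        refine ⟨(∏ x ∈ G.erase z, fA x) * map (algebraMap k F) (∏ q ∈ Q, fB q), ?_⟩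
        rw [hP, ← Finset.mul_prod_erase G fA hz']
        ring
      rw [pow_one, hr, map_mul, mul_assoc]
      exact RingHom.IsIntegralElem.mul _ (ev.isIntegralElem_map) (hA z)
    | algebraMap c =>
      refine ⟨0, ?_⟩
      rw [pow_zero, one_mul]
      have : algebraMap F Ω c = ev (C c) := by simp [hev]
      rw [this]
      exact ev.isIntegralElem_map
    | add x y _ _ hx hy =>
      obtain ⟨n, hn⟩ := hx
      obtain ⟨m, hm⟩ := hy
      refine ⟨n + m, ?_⟩
      have : ev P ^ (n + m) * (x + y) =
          ev P ^ m * (ev P ^ n * x) + ev P ^ n * (ev P ^ m * y) := by ring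
      rw [this]
      refine RingHom.IsIntegralElem.add _ ?_ ?_
      · rw [← map_pow ev P m]
        exact RingHom.IsIntegralElem.mul _ (ev.isIntegralElem_map) hn
      · rw [← map_pow ev P n]
        exact RingHom.IsIntegralElem.mul _ (ev.isIntegralElem_map) hm
    | mul x y _ _ hx hy =>
      obtain ⟨n, hn⟩ := hx
      obtain ⟨m, hm⟩ := hy
      refine ⟨n + m, ?_⟩
      have : ev P ^ (n + m) * (x * y) = (ev P ^ n * x) * (ev P ^ m * y) := by ring
      rw [this]
      exact RingHom.IsIntegralElem.mul _ hn hm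
  -- the ideal of the point
  let t' : τ → D := fun i => ⟨t i, hG i⟩
  let I : Ideal D := Ideal.span (Set.range fun i => t' i - algebraMap F D (a' i))
  have hI : I ≠ ⊤ := by
    intro htop
    have h1 : (1 : D) ∈ I := htop ▸ Submodule.mem_top
    obtain ⟨c, hc⟩ := (Ideal.mem_span_range_iff_exists_fun).1 h1
    choose n hn using fun i => hden (c i : Ω) (c i).2
    let N := ∑ i, n i
    have hN : ∀ i, ev.IsIntegralElem (ev P ^ N * (c i : Ω)) := by
      intro i
      have h2 : n i ≤ N := Finset.single_le_sum (f := n) (fun _ _ => Nat.zero_le _)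
        (Finset.mem_univ i)
      obtain ⟨m, hm⟩ := Nat.exists_eq_add_of_le h2
      have h3 : ev P ^ N * (c i : Ω) = ev (P ^ m) * (ev P ^ n i * (c i : Ω)) := by
        rw [hm, map_pow]
        ring
      rw [h3]
      exact RingHom.IsIntegralElem.mul _ (ev.isIntegralElem_map) (hn i)
    let : Algebra (MvPolynomial τ F) Ω := ev.toAlgebra
    let CC := integralClosure (MvPolynomial τ F) Ω
    let q : Ideal (MvPolynomial τ F) := RingHom.ker (eval a')
    have hq : q.IsPrime := RingHom.ker_isPrime _
    have hinj : Function.Injective (algebraMap (MvPolynomial τ F) Ω) := ht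
    have hinj' : Function.Injective (algebraMap (MvPolynomial τ F) CC) := by
      intro x y hxy
      exact hinj (congrArg (algebraMap CC Ω) hxy)
    obtain ⟨q', -, hq', hcomap⟩ := Ideal.exists_ideal_over_prime_of_isIntegral (S := CC) q ⊥ (by
      rw [← RingHom.ker_eq_comap_bot, (RingHom.injective_iff_ker_eq_bot _).1 hinj']
      exact bot_le)
    let e : τ → CC := fun i => ⟨ev P ^ N * (c i : Ω), hN i⟩
    have h5 : algebraMap (MvPolynomial τ F) CC (P ^ N) =
        ∑ i, e i * algebraMap (MvPolynomial τ F) CC (X i - C (a' i)) := by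
      apply Subtype.ext
      have h6 := congrArg (Subtype.val : D → Ω) hc
      simp only [AddSubmonoidClass.coe_finsetSum, MulMemClass.coe_mul, OneMemClass.coe_one,
        AddSubgroupClass.coe_sub] at h6
      rw [AddSubmonoidClass.coe_finsetSum]
      change ev (P ^ N) = ∑ i, (ev P ^ N * (c i : Ω)) * ev (X i - C (a' i))
      have h7 : ∀ i, (ev P ^ N * (c i : Ω)) * ev (X i - C (a' i)) =
          ev P ^ N * ((c i : Ω) * (t i - algebraMap F Ω (a' i))) := by
        intro i
        have h10 : ev (C (a' i)) = algebraMap F Ω (a' i) := by simp [hev]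
        have h11 : ev (X i) = t i := by simp [hev]
        rw [map_sub, h10, h11]
        ring
      rw [Finset.sum_congr rfl fun i _ => h7 i, ← Finset.mul_sum, map_pow]
      have h8 : ∑ i, (c i : Ω) * (t i - algebraMap F Ω (a' i)) = 1 := h6
      rw [h8, mul_one]
    have h9 : algebraMap (MvPolynomial τ F) CC (P ^ N) ∈ q' := by
      rw [h5]
      refine Ideal.sum_mem _ fun i _ => Ideal.mul_mem_left _ _ ?_
      rw [← Ideal.mem_comap, hcomap, RingHom.mem_ker]
      simp
    rw [← Ideal.mem_comap, hcomap, RingHom.mem_ker, map_pow] at h9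
    exact ha (eq_zero_of_pow_eq_zero h9)
  obtain ⟨mx, hmx, hle⟩ := Ideal.exists_le_maximal I hI
  have hft : Algebra.FiniteType F D := Algebra.FiniteType.adjoin_of_finite (G.finite_toSet)
  let iq : Field (D ⧸ mx) := Ideal.Quotient.field mx
  have hfq : Algebra.FiniteType F (D ⧸ mx) :=
    Algebra.FiniteType.of_surjective (Ideal.Quotient.mkₐ F mx) Ideal.Quotient.mk_surjective
  have hfin : Module.Finite F (D ⧸ mx) := finite_of_finite_type_of_isJacobsonRing F (D ⧸ mx)
  have hbij : Function.Bijective (Algebra.ofId F (D ⧸ mx)) :=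
    IsAlgClosed.algebraMap_bijective_of_isIntegral (k := F) (K := D ⧸ mx)
  let g : D →ₐ[F] F :=
    (AlgEquiv.ofBijective (Algebra.ofId F (D ⧸ mx)) hbij).symm.toAlgHom.comp
      (Ideal.Quotient.mkₐ F mx)
  have hgt : ∀ i, g (t' i) = a' i := by
    intro i
    have h1 : t' i - algebraMap F D (a' i) ∈ mx := hle (Ideal.subset_span ⟨i, rfl⟩)
    have h2 : g (t' i - algebraMap F D (a' i)) = 0 := by
      change (AlgEquiv.ofBijective (Algebra.ofId F (D ⧸ mx)) hbij).symm
        (Ideal.Quotient.mk mx _) = 0
      rw [Ideal.Quotient.eq_zero_iff_mem.2 h1, map_zero]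
    rw [map_sub, AlgHom.commutes] at h2
    simpa [sub_eq_zero] using h2
  refine ⟨g, fun q hq => ?_⟩
  let q' : D := ⟨q, (hQ q hq).1⟩
  obtain ⟨p, hpm, hp⟩ := hB q hq
  let θ : MvPolynomial τ k →+* D :=
    eval₂Hom ((algebraMap F D).comp (algebraMap k F)) t'
  have hθ : (D.val.toRingHom).comp θ = (aeval t : MvPolynomial τ k →ₐ[k] Ω).toRingHom := by
    ext x
    · simp only [θ, RingHom.comp_apply, eval₂Hom_C, AlgHom.toRingHom_eq_coe, RingHom.coe_coe,
        aeval_C]
      exact (IsScalarTower.algebraMap_apply k F Ω x).symm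
    · simp [θ, t']
  have h1 : Polynomial.eval₂ θ (θ (fB q) * q') p = 0 := by
    apply (Subtype.val_injective : Function.Injective (Subtype.val : D → Ω))
    have h2 : (D.val.toRingHom) (Polynomial.eval₂ θ (θ (fB q) * q') p) =
        Polynomial.eval₂ (D.val.toRingHom.comp θ) (D.val.toRingHom (θ (fB q) * q')) p :=
      Polynomial.hom_eval₂ _ _ _ _
    change (D.val.toRingHom) (Polynomial.eval₂ θ (θ (fB q) * q') p) = 0
    rw [h2, map_mul, ← RingHom.comp_apply D.val.toRingHom θ, hθ]
    exact hp
  have h3 : (g.toRingHom).comp θ = (algebraMap k F).comp (eval a) := by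
    ext x
    · simp [θ]
    · simp [θ, hgt, ha']
  have h4 : Polynomial.eval₂ ((algebraMap k F).comp (eval a))
      (algebraMap k F (eval a (fB q)) * g q') p = 0 := by
    have h5 := congrArg g.toRingHom h1
    rw [Polynomial.hom_eval₂, map_zero, h3, map_mul] at h5
    have h6 : g.toRingHom (θ (fB q)) = algebraMap k F (eval a (fB q)) := by
      rw [← RingHom.comp_apply, h3, RingHom.comp_apply]
    rw [h6] at h5
    exact h5
  have h5 : IsIntegral k (algebraMap k F (eval a (fB q)) * g q') := by
    refine ⟨p.map (eval a), hpm.map _, ?_⟩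
    rw [Polynomial.eval₂_map]
    exact h4
  obtain ⟨w, hw⟩ := mem_range_of_integral _ h5
  have h6 : eval a (fB q) ≠ 0 := by
    intro h7
    apply ha
    rw [hP, map_mul]
    have h8 : eval a' (map (algebraMap k F) (∏ q ∈ Q, fB q)) =
        algebraMap k F (eval a (∏ q ∈ Q, fB q)) := by
      rw [eval_map]
      exact (eval₂_comp (algebraMap k F) a _).symm
    have h9 : eval a (∏ q ∈ Q, fB q) = 0 := by
      rw [map_prod]
      exact Finset.prod_eq_zero hq h7
    rw [h8, h9, map_zero, mul_zero]
  refine ⟨w / eval a (fB q), ?_⟩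
  rw [map_div₀, hw]
  exact mul_div_cancel_left₀ _ (by rwa [Ne, map_eq_zero])

end Pool.Agent.Q26.TL
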